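import Pool.Agent.Lib.MP_3d915a_al.EG.Main

/-!
# An explicit gap above every rational number for words with a bounded number of syllables

For all `L ≥ 2` and all integers `P`, `Q` with `Q ≥ 1`, no element of `[F, F]` which is, in some basis of
`F`, a product of at most `L` factors `a^x b^y` (`x`, `y` arbitrary integers) has a stable commutator
length strictly between `P/Q` and `P/Q + 1 / (4 L Q)^((4 L)^(15 L))`; for `P/Q = 1/2` this is the interval
from `1/2` to `1/2 + 1 / (8 L)^((4 L)^(15 L))`.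
-/

namespace Pool.Agent.Results.MP_3d915a_al.ExplicitGap

/-- the free group of rank 2 -/
abbrev F : Type := FreeGroup (Fin 2)

/-- `g` is a product of `k` commutators -/
def ProdComm (k : ℕ) (g : F) : Prop :=
  ∃ l : List (F × F), l.length = k ∧
    (l.map (fun p : F × F => p.1 * p.2 * p.1⁻¹ * p.2⁻¹)).prod = g

/-- commutator length -/
noncomputable def cl (g : F) : ℕ := sInf {k : ℕ | ProdComm k g}

/-- stable commutator length, the infimum (equal to the limit) of `cl (g^n) / n` over `n ≥ 1` -/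
noncomputable def scl (g : F) : ℝ := ⨅ n : ℕ+, (cl (g ^ (n : ℕ)) : ℝ) / ((n : ℕ) : ℝ)

/-- for some automorphism `θ` of `F` (that is, in some basis) `g` is a product of at most `L`
factors `a^x b^y`, where `x` and `y` are arbitrary integers -/
def SyllLE (L : ℕ) (g : F) : Prop :=
  ∃ (θ : F ≃* F) (u : List (ℤ × ℤ)), u.length ≤ L ∧
    θ g = (u.map (fun q : ℤ × ℤ => FreeGroup.of 0 ^ q.1 * FreeGroup.of 1 ^ q.2)).prod

/-- Let `L ≥ 2`, let `g` be an element of `[F, F]` that in some basis of `F` is a product of at most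
`L` factors `a^x b^y`, and let `P`, `Q` be integers with `Q ≥ 1`. If `scl g > P/Q`, then
`scl g ≥ P/Q + 1 / (4 L Q)^((4 L)^(15 L))`. -/
theorem result :
    ∀ L : ℕ, 2 ≤ L → ∀ g ∈ commutator F, SyllLE L g →
      ∀ (P : ℤ) (Q : ℕ), 1 ≤ Q → (P : ℝ) / Q < scl g →
        (P : ℝ) / Q + 1 / (4 * L * Q : ℝ) ^ (4 * L) ^ (15 * L) ≤ scl g :=
  fun _ hL g hg hS P _ hQ h =>
    Pool.Agent.Lib.MP_3d915a_al.EG.explicit_gap hL hQ P g hg hS h

end Pool.Agent.Results.MP_3d915a_al.ExplicitGap
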