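import Pool.Agent.Lib.MP_3d915a_al.SCL.Main

/-!
# The values of scl on words with a bounded number of syllables are well ordered

For every `L` the set of the values of `scl` on the elements of `[F, F]` which are, in some basis of `F`,
products of at most `L` factors `a^x b^y` (`x`, `y` arbitrary integers) is well ordered.
-/

namespace Pool.Agent.Results.MP_3d915a_al.WellOrdered

/-- the free group of rank 2 -/
abbrev F : Type := FreeGroup (Fin 2)

/-- `g` is a product of `k` commutators -/
def ProdComm (k : ℕ) (g : F) : Prop :=
  ∃ l : List (F × F), l.length = k ∧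
    (l.map (fun p : F × F => p.1 * p.2 * p.1⁻¹ * p.2⁻¹)).prod = g

/-- commutator length -/
noncomputable def cl (g : F) : ℕ := sInf {k : ℕ | ProdComm k g}

/-- stable commutator length, the infimum (equal to the limit) of `cl (g^n) / n` over `n ≥ 1` -/
noncomputable def scl (g : F) : ℝ := ⨅ n : ℕ+, (cl (g ^ (n : ℕ)) : ℝ) / ((n : ℕ) : ℝ)

/-- for some automorphism `θ` of `F` (that is, in some basis) `g` is a product of at most `L`
factors `a^x b^y`, where `x` and `y` are arbitrary integers -/
def SyllLE (L : ℕ) (g : F) : Prop :=
  ∃ (θ : F ≃* F) (u : List (ℤ × ℤ)), u.length ≤ L ∧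
    θ g = (u.map (fun q : ℤ × ℤ => FreeGroup.of 0 ^ q.1 * FreeGroup.of 1 ^ q.2)).prod

/-- For every `L` the set of the values of `scl` on the elements of `[F, F]` that in some basis of `F`
are products of at most `L` factors `a^x b^y` is well ordered by `<`. -/
theorem result : ∀ L : ℕ, {x : ℝ | ∃ g ∈ commutator F, SyllLE L g ∧ scl g = x}.IsWF :=
  fun L => Pool.Agent.Lib.MP_3d915a_al.values_wf L

end Pool.Agent.Results.MP_3d915a_al.WellOrdered
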